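import Pool.Agent.H29.DW.Targets
import Pool.Agent.H61.GLB.TF
import Pool.Agent.H19.GLB.VL

/-!
# (AVG) averaging over a box
-/

set_option autoImplicit false

open NumberField NumberField.InfinitePlace NumberField.Units
  NumberField.Units.dirichletUnitTheorem MeasureTheory Set Filter Complex
open scoped nonZeroDivisors ENNReal

namespace Pool.Agent.H47.DW

open Pool.Agent.H25.HK Pool.Agent.H23.LB Pool.Agent.H23.LC Pool.Agent.H29.DW

section

variable (K : Type) [Field K] [NumberField K]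

theorem BX_abs (n : ℕ) (hK : Module.finrank ℚ K = n) (b : logSpace K × ℝ) (hb : b ∈ BX K n) :
    |b.2| ≤ 1 := by
  have hn : 0 < n := hK ▸ Module.finrank_pos
  have hn' : (0 : ℝ) < n := by exact_mod_cast hn
  have h1 := (Pool.Agent.H87.HK.yc_main K).1 b.2 b.1
  have h2 : |2 * b.2| ≤ 1 := by
    rw [← h1]
    refine (Finset.abs_sum_le_sum_abs _ _).trans ?_
    have h3 : ∀ v ∈ (Finset.univ : Finset (InfinitePlace K)),
        |(v.mult : ℝ) * yc K b.2 b.1 v| ≤ (v.mult : ℝ) * (1 / (n : ℝ)) := by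
      intro v _
      rw [abs_mul, abs_of_pos (Pool.Agent.H87.HK.mult_pos' K v)]
      exact mul_le_mul_of_nonneg_left (hb v) (Pool.Agent.H87.HK.mult_pos' K v).le
    refine (Finset.sum_le_sum h3).trans ?_
    rw [← Finset.sum_mul]
    have h4 : ∑ w : InfinitePlace K, (mult w : ℝ) = n := by
      rw [← hK]
      exact_mod_cast congrArg (Nat.cast (R := ℝ)) (sum_mult_eq (K := K))
    rw [h4]
    exact le_of_eq (by field_simp)
  rw [abs_mul, abs_of_pos (by norm_num : (0 : ℝ) < 2)] at h2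
  linarith [abs_nonneg b.2]

open scoped Classical in
/-- a shift -/
theorem one_shift (n : ℕ) (hK : Module.finrank ℚ K = n) (g : logSpace K × ℝ → ℝ≥0∞)
    (hg : ∀ z, ∀ l ∈ unitLattice K, ∀ τ, g (z + l, τ) = g (z, τ)) (τ₁ : ℝ)
    (b : logSpace K × ℝ) (hb : b ∈ BX K n) :
    ∫⁻ z in Fd K, ∫⁻ τ in Icc τ₁ (τ₁ + 1), g (z, τ) ≤
      ∫⁻ z in Fd K, ∫⁻ τ in Icc (τ₁ - 1) (τ₁ + 2), g (z + b.1, τ + b.2) := by
  have hb2 := abs_le.1 (BX_abs K n hK b hb)
  have h1 : ∀ z : logSpace K, ∫⁻ τ in Icc τ₁ (τ₁ + 1), g (z + b.1, τ) ≤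
      ∫⁻ τ in Icc (τ₁ - 1) (τ₁ + 2), g (z + b.1, τ + b.2) := by
    intro z
    have h2 : ∫⁻ τ in Icc (τ₁ - 1) (τ₁ + 2), g (z + b.1, τ + b.2) =
        ∫⁻ τ in Icc (τ₁ - 1 + b.2) (τ₁ + 2 + b.2), g (z + b.1, τ) := by
      rw [← lintegral_indicator measurableSet_Icc, ← lintegral_indicator measurableSet_Icc]
      rw [← lintegral_add_right_eq_self (μ := (volume : Measure ℝ))
        (fun τ => (Icc (τ₁ - 1 + b.2) (τ₁ + 2 + b.2)).indicator (fun τ => g (z + b.1, τ)) τ) b.2]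
      refine lintegral_congr fun τ => ?_
      by_cases h : τ ∈ Icc (τ₁ - 1) (τ₁ + 2)
      · have h' : τ + b.2 ∈ Icc (τ₁ - 1 + b.2) (τ₁ + 2 + b.2) :=
          ⟨by linarith [h.1], by linarith [h.2]⟩
        rw [indicator_of_mem h, indicator_of_mem h']
      · have h' : τ + b.2 ∉ Icc (τ₁ - 1 + b.2) (τ₁ + 2 + b.2) := fun h2 =>
          h ⟨by linarith [h2.1], by linarith [h2.2]⟩
        rw [indicator_of_notMem h, indicator_of_notMem h']
    rw [h2]
    refine lintegral_mono_set ?_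
    intro τ hτ
    exact ⟨by linarith [hτ.1, hb2.2], by linarith [hτ.2, hb2.1]⟩
  have h3 := Pool.Agent.H61.GLB.Fd_trans K (fun z => ∫⁻ τ in Icc τ₁ (τ₁ + 1), g (z, τ))
    (fun z l hl => lintegral_congr fun τ => hg z l hl τ) b.1
  rw [← h3]
  exact lintegral_mono fun z => h1 z

end

open scoped Classical in
/-- (AVG) -/
theorem pf_AVG (hVL : U_VL) : V_AVG := by
  intro n hn
  obtain ⟨c, Cv, hc, hCv, hvol⟩ := hVL n
  have hn' : (0 : ℝ) < n := by exact_mod_cast hn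
  have hn1 : (1 : ℝ) ≤ n := by exact_mod_cast hn
  set v₀ : ℝ := c * (1 / (n : ℝ)) ^ n with hv₀
  have hv₀p : 0 < v₀ := by positivity
  refine ⟨v₀⁻¹, by positivity, ?_⟩
  intro K _ _ hK g hgm hg τ₁
  have hvb : ENNReal.ofReal v₀ ≤ volume (BX K n) := by
    have h1 := (hvol K hK (1 / (n : ℝ)) (by positivity)
      (by rw [div_le_iff₀ hn']; linarith)).1
    refine le_trans (ENNReal.ofReal_le_ofReal ?_) h1
    refine mul_le_mul_of_nonneg_left ?_ hc.le
    refine pow_le_pow_of_le_one (by positivity) (by rw [div_le_iff₀ hn']; linarith) ?_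
    exact hK ▸ Pool.Agent.H19.GLB.vl_np_le K
  have hhaar := Pool.Agent.H61.GLB.vol_haar K
  have hsf : SFinite (volume : Measure (logSpace K × ℝ)) := inferInstance
  -- the product integral
  set L : ℝ≥0∞ := ∫⁻ z in Fd K, ∫⁻ τ in Icc τ₁ (τ₁ + 1), g (z, τ) with hL
  have h1 : ENNReal.ofReal v₀ * L ≤
      ∫⁻ b in BX K n, ∫⁻ z in Fd K, ∫⁻ τ in Icc (τ₁ - 1) (τ₁ + 2), g (z + b.1, τ + b.2) := by
    calc ENNReal.ofReal v₀ * L ≤ volume (BX K n) * L := mul_le_mul_left hvb _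
      _ = ∫⁻ b in BX K n, L := by rw [setLIntegral_const, mul_comm]
      _ ≤ _ := by
        refine setLIntegral_mono' (Pool.Agent.H61.GLB.Wc_meas K (1 / (n : ℝ))) ?_
        intro b hb
        exact one_shift K n hK g hg τ₁ b hb
  have hm3 : Measurable (fun u : (logSpace K × ℝ) × (logSpace K × ℝ) =>
      g (u.2.1 + u.1.1, u.2.2 + u.1.2)) := by
    refine hgm.comp ?_
    fun_prop
  have h2 : ∫⁻ b in BX K n, ∫⁻ z in Fd K, ∫⁻ τ in Icc (τ₁ - 1) (τ₁ + 2),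
        g (z + b.1, τ + b.2) =
      ∫⁻ z in Fd K, ∫⁻ b in BX K n, ∫⁻ τ in Icc (τ₁ - 1) (τ₁ + 2), g (z + b.1, τ + b.2) := by
    refine lintegral_lintegral_swap ?_
    refine Measurable.aemeasurable ?_
    refine Measurable.lintegral_prod_right' (f := fun u : ((logSpace K × ℝ) × logSpace K) × ℝ =>
      g (u.1.2 + u.1.1.1, u.2 + u.1.1.2)) ?_
    refine hgm.comp ?_
    fun_prop
  have h3 : ∀ z : logSpace K, ∫⁻ b in BX K n, ∫⁻ τ in Icc (τ₁ - 1) (τ₁ + 2),
        g (z + b.1, τ + b.2) =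
      ∫⁻ τ in Icc (τ₁ - 1) (τ₁ + 2), ∫⁻ b in BX K n, g (z + b.1, τ + b.2) := by
    intro z
    refine lintegral_lintegral_swap ?_
    refine Measurable.aemeasurable ?_
    refine hgm.comp ?_
    fun_prop
  rw [h2] at h1
  simp_rw [h3] at h1
  set R : ℝ≥0∞ := ∫⁻ z in Fd K, ∫⁻ τ in Icc (τ₁ - 1) (τ₁ + 2), ∫⁻ b in BX K n,
    g (z + b.1, τ + b.2) with hR
  have h4 : ENNReal.ofReal v₀⁻¹ * (ENNReal.ofReal v₀ * L) = L := by
    rw [← mul_assoc, ← ENNReal.ofReal_mul (by positivity), inv_mul_cancel₀ hv₀p.ne',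
      ENNReal.ofReal_one, one_mul]
  rw [← h4]
  exact mul_le_mul_right h1 _

end Pool.Agent.H47.DW
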