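import Pool.Agent.H29.DW.Tools
import Pool.Agent.H21.GLB.SM

/-!
# (IN) the integral representation of the weights
-/

set_option autoImplicit false

open NumberField NumberField.InfinitePlace NumberField.Units
  NumberField.Units.dirichletUnitTheorem MeasureTheory Set Filter Complex
open scoped nonZeroDivisors ENNReal

namespace Pool.Agent.H47.DW

open Pool.Agent.H25.HK Pool.Agent.H23.LB Pool.Agent.H23.LC Pool.Agent.H29.DW
open Pool.Agent.H28.RC (Rep ft idl)

section

variable {K : Type} [Field K] [NumberField K]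

/-- the test functions of the two kinds -/
theorem Wg_pl {cp : InfinitePlace K → ℂ} {H : InfinitePlace K → ℝ} (hH : ∀ v, 1 ≤ H v) (l : ℂ)
    (x : K) (y : InfinitePlace K → ℝ) (ω : InfinitePlace K → ℂ) :
    Wg cp H (pl H l) x y ω = Wg cp H pb x y ω *
      cexp (-l * ((∑ v : InfinitePlace K, (v.mult : ℝ) * Real.log ‖wv v x y ω‖ : ℝ) : ℂ)) := by
  unfold Wg
  have h1 : cexp (-l * ((∑ v : InfinitePlace K, (v.mult : ℝ) * Real.log ‖wv v x y ω‖ : ℝ) : ℂ)) =
      ∏ v : InfinitePlace K, cexp (-(v.mult * l) * (Real.log ‖wv v x y ω‖ : ℝ)) := by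
    rw [← Complex.exp_sum]
    congr 1
    push_cast
    rw [Finset.mul_sum]
    refine Finset.sum_congr rfl fun v _ => ?_
    ring
  rw [h1, ← Finset.prod_mul_distrib]
  refine Finset.prod_congr rfl fun v _ => ?_
  unfold tw1 pl pb
  rw [pp_eq _ _ _ (hH v)]
  ring

/-- the norm of the ideal -/
theorem log_norm (hYC : T_YC) (M : FI K) (hM : M ≠ 0) (x : K) (hx : x ∈ M) (hx0 : x ≠ 0)
    (τ : ℝ) (z : logSpace K) {ω : InfinitePlace K → ℂ} (hω : Pos ω) :
    0 < (Ideal.absNorm (idl K M x) : ℝ) ∧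
    ∑ v : InfinitePlace K, (v.mult : ℝ) * Real.log ‖wv v x (yM K M τ z) ω‖ =
      Real.log (Ideal.absNorm (idl K M x) : ℝ) + τ := by
  have hMpos : 0 < (FractionalIdeal.absNorm M : ℝ) := by
    have h1 : FractionalIdeal.absNorm M ≠ 0 := by
      rw [Ne, FractionalIdeal.absNorm_eq_zero_iff]
      exact hM
    have h2 : 0 ≤ FractionalIdeal.absNorm M := FractionalIdeal.absNorm_nonneg M
    have h3 : 0 < FractionalIdeal.absNorm M := lt_of_le_of_ne h2 (Ne.symm h1)
    exact_mod_cast h3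
  have hn := Pool.Agent.H21.GLB.norm_idl M hM x hx
  have hIpos : 0 < (Ideal.absNorm (idl K M x) : ℝ) := by
    have h1 : ((|Algebra.norm ℚ x| : ℚ) : ℝ) ≠ 0 := by
      have : Algebra.norm ℚ x ≠ 0 := Algebra.norm_ne_zero_iff.2 hx0
      exact_mod_cast abs_ne_zero.2 this
    rw [← hn] at h1
    exact lt_of_le_of_ne (Nat.cast_nonneg _) (Ne.symm (left_ne_zero_of_mul h1))
  refine ⟨hIpos, ?_⟩
  have h1 := (hYC K).1 (τ - Real.log (FractionalIdeal.absNorm M : ℝ)) z
  have h2 := Pool.Agent.H21.GLB.sum_log x hx0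
  rw [← hn, Real.log_mul hIpos.ne' hMpos.ne'] at h2
  have h3 : ∀ v : InfinitePlace K, (v.mult : ℝ) * Real.log ‖wv v x (yM K M τ z) ω‖ =
      (v.mult : ℝ) * Real.log (v x) + (v.mult : ℝ) * yM K M τ z v / 2 := by
    intro v
    rw [norm_wv v x _ hω, Real.log_mul ((map_ne_zero v).2 hx0) (Real.exp_ne_zero _), Real.log_exp]
    ring
  rw [Finset.sum_congr rfl fun v _ => h3 v, Finset.sum_add_distrib, h2, ← Finset.sum_div]
  have h4 : ∑ v : InfinitePlace K, (v.mult : ℝ) * yM K M τ z v =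
      2 * (τ - Real.log (FractionalIdeal.absNorm M : ℝ)) := h1
  rw [h4]
  ring

omit [NumberField K] in
theorem b0_supp' (v : InfinitePlace K) (x : ℂ) (h : 1 / 16 < ‖x‖) : pb v x = 0 := by
  unfold pb
  rw [b0_zero h.le, Complex.ofReal_zero]

omit [NumberField K] in
theorem pl_supp' (H : InfinitePlace K → ℝ) (l : ℂ) (v : InfinitePlace K) (x : ℂ)
    (h : 1 / 16 < ‖x‖) : pl H l v x = 0 := pp_zero h.le

end

open scoped Classical in
/-- (IN) -/
theorem pf_IN (hTH : T_TH) (hYC : T_YC) (_hMS : V_MS) : V_IN := by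
  intro K _ _ M cp H cc s κ X B v hM hPrm _hcc hκ hκ1 hX hB hWt z τ θ σ hσ
  obtain ⟨g, hgm, hgb, hgv⟩ := hWt σ hσ
  have hH : ∀ v, 1 ≤ H v := fun v => hPrm.one_le v
  have hω : Pos (om s θ) := Pos_om s θ
  set y := yM K M τ z with hy
  set ω := om s θ with hωd
  have hσ0 : 0 ≤ σ := by
    rcases hσ with h | h
    · rw [h]; exact hκ.le
    · rw [h]; exact zero_le_one
  set l : ℝ → ℂ := fun u => 1 / 2 + σ + u * I with hl
  -- the finite set
  have hfin : {x : {x : K // x ∈ M} | Wg cp H pb x.1 y ω ≠ 0}.Finite := by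
    set D : ℝ := ∑ v : InfinitePlace K, |y v| with hD
    refine (Pool.Agent.H21.GLB.fin_set hTH M hM (2 * Real.exp D)).subset ?_
    intro x hx v
    have h1 := Wg_ne hH (fun v x h => b0_supp' v x h) hx v
    have h2 : ‖wv v x.1 y ω - 1‖ ≤ 1 := by
      have h0 := norm_nonneg (wv v x.1 y ω - 1)
      nlinarith [hH v]
    have h3 : ‖wv v x.1 y ω‖ ≤ 2 := by
      calc ‖wv v x.1 y ω‖ = ‖(wv v x.1 y ω - 1) + 1‖ := by rw [sub_add_cancel]
        _ ≤ ‖wv v x.1 y ω - 1‖ + ‖(1 : ℂ)‖ := norm_add_le _ _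
        _ ≤ 2 := by rw [norm_one]; linarith
    rw [norm_wv v x.1 y hω] at h3
    have h4 : |y v| ≤ D := by
      rw [hD]
      exact Finset.single_le_sum (f := fun v => |y v|) (fun v _ => abs_nonneg _) (Finset.mem_univ v)
    have h5 : Real.exp (y v / 2) * Real.exp D ≥ 1 := by
      rw [← Real.exp_add]
      refine Real.one_le_exp ?_
      have := neg_abs_le (y v)
      linarith [abs_nonneg (y v)]
    have h6 : 0 ≤ v x.1 := apply_nonneg v x.1
    calc v x.1 = v x.1 * 1 := (mul_one _).symm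
      _ ≤ v x.1 * (Real.exp (y v / 2) * Real.exp D) := mul_le_mul_of_nonneg_left h5 h6
      _ = (v x.1 * Real.exp (y v / 2)) * Real.exp D := by ring
      _ ≤ 2 * Real.exp D := mul_le_mul_of_nonneg_right h3 (Real.exp_pos _).le
  have hlWg : ∀ (x : K) (u : ℝ), Wg cp H (pl H (l u)) x y ω = Wg cp H pb x y ω *
      cexp (-(l u) * ((∑ v : InfinitePlace K, (v.mult : ℝ) * Real.log ‖wv v x y ω‖ : ℝ) : ℂ)) :=
    fun x u => Wg_pl hH (l u) x y ω
  have hzero : Wg cp H pb (0 : K) y ω = 0 := Wg_zero hH fun v x h => b0_supp' v x h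
  set S : Finset K := hfin.toFinset.image Subtype.val with hS
  have hSM : ∀ x ∈ S, x ∈ M ∧ x ≠ 0 ∧ Wg cp H pb x y ω ≠ 0 := by
    intro x hx
    rw [hS, Finset.mem_image] at hx
    obtain ⟨x', hx', rfl⟩ := hx
    have h1 : Wg cp H pb x'.1 y ω ≠ 0 := hfin.mem_toFinset.1 hx'
    refine ⟨x'.2, ?_, h1⟩
    intro h
    exact h1 (by rw [h]; exact hzero)
  have hSc : ∀ x ∈ M, x ∉ S → Wg cp H pb x y ω = 0 := by
    intro x hx hxS
    by_contra h
    exact hxS (Finset.mem_image.2 ⟨⟨x, hx⟩, hfin.mem_toFinset.2 h, rfl⟩)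
  -- the two sums are finite sums over S
  have hsum1 : ∑' x : {x : K // x ∈ M ∧ x ≠ 0}, cc x * v (Ideal.absNorm (idl K M x)) *
      Wg cp H pb x y ω = ∑ x ∈ S, cc x * v (Ideal.absNorm (idl K M x)) * Wg cp H pb x y ω := by
    have h1 : ∑ x ∈ S, cc x * v (Ideal.absNorm (idl K M x)) * Wg cp H pb x y ω =
        ∑ x ∈ S.subtype (fun x => x ∈ M ∧ x ≠ 0), cc x * v (Ideal.absNorm (idl K M x)) *
          Wg cp H pb x y ω := by
      exact (Finset.sum_subtype_of_mem (p := fun x => x ∈ M ∧ x ≠ 0)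
        (fun x => cc x * v (Ideal.absNorm (idl K M x)) * Wg cp H pb x y ω)
        (fun x hx => ⟨(hSM x hx).1, (hSM x hx).2.1⟩)).symm
    rw [h1]
    refine tsum_eq_sum fun x hx => ?_
    rw [Finset.mem_subtype] at hx
    rw [hSc x.1 x.2.1 hx, mul_zero]
  have hsum2 : ∀ u : ℝ, ∑' x : {x : K // x ∈ M}, cc x * Wg cp H (pl H (l u)) x y ω =
      ∑ x ∈ S, cc x * Wg cp H (pl H (l u)) x y ω := by
    intro u
    have h1 : ∑ x ∈ S, cc x * Wg cp H (pl H (l u)) x y ω =
        ∑ x ∈ S.subtype (fun x => x ∈ M), cc x * Wg cp H (pl H (l u)) x y ω := by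
      exact (Finset.sum_subtype_of_mem (p := fun x => x ∈ M)
        (fun x => cc x * Wg cp H (pl H (l u)) x y ω) (fun x hx => (hSM x hx).1)).symm
    rw [h1]
    refine tsum_eq_sum fun x hx => ?_
    rw [Finset.mem_subtype] at hx
    rw [hlWg, hSc x.1 x.2 hx, zero_mul, mul_zero]
  -- one term
  have hterm : ∀ x ∈ S, Integrable (fun u : ℝ => g u * cexp (τ * l u) *
        (cc x * Wg cp H (pl H (l u)) x y ω)) ∧
      cc x * v (Ideal.absNorm (idl K M x)) * Wg cp H pb x y ω =
        ∫ u : ℝ, g u * cexp (τ * l u) * (cc x * Wg cp H (pl H (l u)) x y ω) := by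
    intro x hx
    obtain ⟨hxM, hx0, -⟩ := hSM x hx
    obtain ⟨hN, hlog⟩ := log_norm hYC M hM x hxM hx0 τ z hω
    set N : ℝ := (Ideal.absNorm (idl K M x) : ℝ) with hNd
    have hN' : (N : ℂ) ≠ 0 := by exact_mod_cast hN.ne'
    have h1 : ∀ u : ℝ, g u * cexp (τ * l u) * (cc x * Wg cp H (pl H (l u)) x y ω) =
        (g u * (N : ℂ) ^ (-(l u))) * (cc x * Wg cp H pb x y ω) := by
      intro u
      rw [hlWg, hlog, Complex.cpow_def_of_ne_zero hN', ← Complex.ofReal_log hN.le]
      have h2 : cexp (τ * l u) * cexp (-(l u) * ((Real.log N + τ : ℝ) : ℂ)) =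
          cexp ((Real.log N : ℝ) * -(l u)) := by
        rw [← Complex.exp_add]
        congr 1
        push_cast
        ring
      calc g u * cexp (τ * l u) * (cc x * (Wg cp H pb x y ω *
            cexp (-(l u) * ((Real.log N + τ : ℝ) : ℂ)))) =
          g u * (cexp (τ * l u) * cexp (-(l u) * ((Real.log N + τ : ℝ) : ℂ))) *
            (cc x * Wg cp H pb x y ω) := by ring
        _ = _ := by rw [h2]
    have h3 : Integrable (fun u : ℝ => g u * (N : ℂ) ^ (-(l u))) := by
      have hgauss : Integrable (fun u : ℝ => B * X ^ σ * N ^ (-(1 / 2 + σ)) *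
          Real.exp (-(1 / 4) * u ^ 2)) :=
        (integrable_exp_neg_mul_sq (by norm_num : (0 : ℝ) < 1 / 4)).const_mul _
      refine hgauss.mono' ?_ (Filter.Eventually.of_forall fun u => ?_)
      · refine (hgm.mul ?_).aestronglyMeasurable
        have : Continuous (fun u : ℝ => (N : ℂ) ^ (-(l u))) := by
          refine Continuous.const_cpow ?_ (Or.inl hN')
          rw [hl]
          fun_prop
        exact this.measurable
      · rw [norm_mul, Complex.norm_cpow_eq_rpow_re_of_pos hN]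
        have h4 : (-(l u)).re = -(1 / 2 + σ) := by
          rw [hl]
          simp
        rw [h4]
        have h5 := hgb u
        have h6 : Real.exp (-u ^ 2 / 4) = Real.exp (-(1 / 4) * u ^ 2) := by
          congr 1
          ring
        rw [h6] at h5
        calc ‖g u‖ * N ^ (-(1 / 2 + σ)) ≤
            (B * X ^ σ * Real.exp (-(1 / 4) * u ^ 2)) * N ^ (-(1 / 2 + σ)) :=
              mul_le_mul_of_nonneg_right h5 (Real.rpow_nonneg hN.le _)
          _ = _ := by ring
    constructor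
    · have := h3.mul_const (cc x * Wg cp H pb x y ω)
      refine this.congr (Filter.Eventually.of_forall fun u => ?_)
      exact (h1 u).symm
    · rw [integral_congr_ae (Filter.Eventually.of_forall h1), integral_mul_const]
      rw [show v (Ideal.absNorm (idl K M x)) = ∫ u : ℝ, g u * (N : ℂ) ^ (-(l u)) from hgv N hN]
      ring
  rw [hsum1]
  have hmain : ∑ x ∈ S, cc x * v (Ideal.absNorm (idl K M x)) * Wg cp H pb x y ω =
      ∫ u : ℝ, g u * cexp (τ * l u) * ∑' x : {x : K // x ∈ M}, cc x *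
        Wg cp H (pl H (l u)) x y ω := by
    rw [Finset.sum_congr rfl fun x hx => (hterm x hx).2, ← integral_finsetSum _
      fun x hx => (hterm x hx).1]
    refine integral_congr_ae (Filter.Eventually.of_forall fun u => ?_)
    simp only
    rw [hsum2, Finset.mul_sum]
  rw [hmain, ofReal_norm]
  refine (enorm_integral_le_lintegral_enorm _).trans ?_
  rw [← lintegral_const_mul' _ _ ENNReal.ofReal_ne_top]
  refine lintegral_mono fun u => ?_
  rw [← ofReal_norm, ← ENNReal.ofReal_mul (by positivity)]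
  refine ENNReal.ofReal_le_ofReal ?_
  rw [norm_mul, norm_mul]
  have h7 : ‖cexp (τ * l u)‖ = Real.exp (τ * (1 / 2 + σ)) := by
    rw [Complex.norm_exp]
    congr 1
    rw [hl]
    simp
  rw [h7]
  calc ‖g u‖ * Real.exp (τ * (1 / 2 + σ)) *
        ‖∑' x : {x : K // x ∈ M}, cc x * Wg cp H (pl H (l u)) x y ω‖
      ≤ (B * X ^ σ * Real.exp (-u ^ 2 / 4)) * Real.exp (τ * (1 / 2 + σ)) *
        ‖∑' x : {x : K // x ∈ M}, cc x * Wg cp H (pl H (l u)) x y ω‖ := by
        gcongr
        exact hgb u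
    _ = _ := by ring

end Pool.Agent.H47.DW
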