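import Pool.Agent.H29.DW.Targets
import Pool.Agent.H41.HK.JA
import Pool.Agent.H87.HK.YC

/-!
# (JB) integrals of products over the box
-/

set_option autoImplicit false

open NumberField NumberField.InfinitePlace NumberField.Units
  NumberField.Units.dirichletUnitTheorem MeasureTheory Set Filter Complex
open scoped nonZeroDivisors ENNReal

namespace Pool.Agent.H47.DW

open Pool.Agent.H25.HK Pool.Agent.H23.LB Pool.Agent.H23.LC Pool.Agent.H29.DW

theorem lint_fin {n : ℕ} (f : Fin n → ℝ → ℝ≥0∞) (hf : ∀ i, Measurable (f i)) :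
    ∫⁻ x : Fin n → ℝ, ∏ i, f i (x i) = ∏ i, ∫⁻ x, f i x := by
  induction n with
  | zero => simp [volume_pi, lintegral_unique]
  | succ n ih =>
    have hmp := (volume_preserving_piFinSuccAbove (fun _ : Fin (n + 1) => ℝ) 0).symm
    rw [← hmp.lintegral_comp_emb (MeasurableEquiv.measurableEmbedding _)]
    have h1 : ∀ y : ℝ × (Fin n → ℝ),
        (∏ i, f i ((MeasurableEquiv.piFinSuccAbove (fun _ : Fin (n + 1) => ℝ) 0).symm y i)) =
        f 0 y.1 * ∏ i : Fin n, f i.succ (y.2 i) := by
      intro y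
      rw [Fin.prod_univ_succ]
      rfl
    simp_rw [h1]
    have h2 := lintegral_prod_mul (μ := (volume : Measure ℝ)) (ν := (volume : Measure (Fin n → ℝ)))
      (f := f 0) (g := fun y => ∏ i : Fin n, f i.succ (y i)) (hf 0).aemeasurable
      (by
        apply Measurable.aemeasurable
        exact Finset.measurable_fun_prod _ (fun i _ => (hf i.succ).comp (measurable_pi_apply i)))
    rw [ih (fun i => f i.succ) (fun i => hf i.succ)] at h2
    rw [Fin.prod_univ_succ]
    exact h2

theorem lint_pi {ι : Type} [Fintype ι] (f : ι → ℝ → ℝ≥0∞) (hf : ∀ i, Measurable (f i)) :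
    ∫⁻ x : ι → ℝ, ∏ i, f i (x i) = ∏ i, ∫⁻ x, f i x := by
  set e := (Fintype.equivFin ι).symm with he
  have hmp := volume_measurePreserving_piCongrLeft (fun _ : ι => ℝ) e
  rw [← hmp.lintegral_comp_emb (MeasurableEquiv.measurableEmbedding _)]
  have h1 : ∀ y : Fin (Fintype.card ι) → ℝ,
      (∏ i, f i (MeasurableEquiv.piCongrLeft (fun _ : ι => ℝ) e y i)) =
      ∏ j, f (e j) (y j) := by
    intro y
    rw [← e.prod_comp]
    refine Finset.prod_congr rfl fun j _ => ?_
    rw [MeasurableEquiv.coe_piCongrLeft, Equiv.piCongrLeft_apply_apply]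
  simp_rw [h1]
  rw [lint_fin _ fun j => hf (e j), ← e.prod_comp]

open scoped Classical in
/-- (JB) -/
theorem pf_JB : V_JB := by
  intro n hn
  refine ⟨1, zero_le_one, ?_⟩
  intro K _ _ hK f hf
  rw [ENNReal.ofReal_one, one_mul]
  set Ic : Set ℝ := Icc (-(1 / (n : ℝ))) (1 / (n : ℝ)) with hIc
  have hIm : MeasurableSet Ic := measurableSet_Icc
  set F : InfinitePlace K → ℝ → ℝ≥0∞ := fun v => Ic.indicator (f v) with hF
  have hFm : ∀ v, Measurable (F v) := fun v => (hf v).indicator hIm
  set G : (InfinitePlace K → ℝ) → ℝ≥0∞ := fun y => ∏ v, F v (y v) with hG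
  have hGm : Measurable G :=
    Finset.measurable_fun_prod _ fun v _ => (hFm v).comp (measurable_pi_apply v)
  -- the box
  have hcont : Continuous (fun p : ℝ × logSpace K => yc K p.1 p.2) :=
    (Pool.Agent.H87.HK.yc_main K).2.2.2.2.1
  have hcont2 : Continuous (fun b : logSpace K × ℝ => yc K b.2 b.1) := hcont.comp continuous_swap
  have hbox : MeasurableSet (BX K n) := by
    have : BX K n = (fun b : logSpace K × ℝ => yc K b.2 b.1) ⁻¹' (univ.pi fun _ => Ic) := by
      ext b
      simp only [BX, mem_ofPred_eq, mem_preimage, mem_univ_pi, hIc, mem_Icc, abs_le]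
    rw [this]
    exact hcont2.measurable (MeasurableSet.univ_pi fun _ => hIm)
  have h1 : ∫⁻ b in BX K n, ∏ v, f v (yc K b.2 b.1 v) =
      ∫⁻ b : logSpace K × ℝ, G (yc K b.2 b.1) := by
    rw [← lintegral_indicator hbox]
    refine lintegral_congr fun b => ?_
    by_cases hb : b ∈ BX K n
    · rw [indicator_of_mem hb, hG]
      refine Finset.prod_congr rfl fun v _ => ?_
      have : yc K b.2 b.1 v ∈ Ic := abs_le.1 (hb v)
      rw [hF]
      simp only
      rw [indicator_of_mem this]
    · rw [indicator_of_notMem hb]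
      obtain ⟨v, hv⟩ : ∃ v : InfinitePlace K, yc K b.2 b.1 v ∉ Ic := by
        by_contra h
        push Not at h
        exact hb fun v => abs_le.2 (h v)
      symm
      refine Finset.prod_eq_zero (Finset.mem_univ v) ?_
      rw [hF]
      simp only
      rw [indicator_of_notMem hv]
  have h2 : ∫⁻ b : logSpace K × ℝ, G (yc K b.2 b.1) = ∫⁻ p : ℝ × logSpace K, G (yc K p.1 p.2) := by
    have hsw : MeasurePreserving (Prod.swap : logSpace K × ℝ → ℝ × logSpace K) volume volume :=
      Measure.measurePreserving_swap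
    exact hsw.lintegral_comp (hGm.comp hcont.measurable)
  have h3 : ∫⁻ p : ℝ × logSpace K, G (yc K p.1 p.2) = ∫⁻ y, G (Pool.Agent.H41.HK.tm K y) := by
    refine ((Pool.Agent.H41.HK.eq₀_mp K).lintegral_comp (hGm.comp hcont.measurable)).symm.trans ?_
    refine lintegral_congr fun y => ?_
    rw [Pool.Agent.H41.HK.tm_apply]
    rfl
  have hdet := Pool.Agent.H41.HK.det_tm K
  have hdet0 : LinearMap.det (Pool.Agent.H41.HK.tm K) ≠ 0 := by
    rw [hdet]; positivity
  have hmap := Measure.map_linearMap_addHaar_eq_smul_addHaar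
    (volume : Measure (InfinitePlace K → ℝ)) hdet0
  rw [hdet] at hmap
  have hc : Continuous (Pool.Agent.H41.HK.tm K) := LinearMap.continuous_of_finiteDimensional _
  have h4 : ∫⁻ y, G (Pool.Agent.H41.HK.tm K y) ≤ ∫⁻ y, G y := by
    rw [← lintegral_map hGm hc.measurable, hmap, lintegral_smul_measure]
    have h5 : ENNReal.ofReal |((2 : ℝ) ^ nrRealPlaces K)⁻¹| ≤ 1 := by
      rw [abs_of_pos (by positivity), ← ENNReal.ofReal_one]
      refine ENNReal.ofReal_le_ofReal ?_
      exact inv_le_one_of_one_le₀ (one_le_pow₀ (by norm_num))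
    calc ENNReal.ofReal |((2 : ℝ) ^ nrRealPlaces K)⁻¹| • ∫⁻ y, G y ≤ 1 * ∫⁻ y, G y := by
          rw [smul_eq_mul]
          exact mul_le_mul_left h5 _
      _ = _ := one_mul _
  rw [h1, h2, h3]
  refine h4.trans ?_
  rw [hG, lint_pi F hFm]
  refine le_of_eq (Finset.prod_congr rfl fun v _ => ?_)
  rw [hF]
  simp only
  rw [lintegral_indicator hIm]

end Pool.Agent.H47.DW
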